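import Pool.Agent.H82.PD.Targets
import Pool.Agent.H27.KL.BES

/-!
# (MAJ) majorants of frequency localized functions
-/

set_option autoImplicit false

namespace Pool.Agent.H38.PD

open MeasureTheory Set FourierTransform Pool.Agent.H82.KL
open scoped ENNReal NNReal SchwartzMap

section

open Pool.Agent.H83.LS Pool.Agent.H14.LS

theorem famA_ptw {d : ℕ} {a : Pool.Agent.H82.KL.EE d → ℂ} (ha : Sym a) (r : ℝ) :
    ∃ C : ℝ, 0 ≤ C ∧ ∀ lam : ℝ, 1 ≤ lam → ∀ x,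
      ‖MK (fun ξ : Pool.Agent.H82.KL.EE d =>
        famA a r ((fun _ => lam⁻¹), lam⁻¹ • ξ)) x‖ ≤
        C * (lam ^ d * ((1 + lam * ‖x‖) ^ (d + 1))⁻¹) := by
  obtain ⟨R, hR⟩ := famA_supp ha r
  obtain ⟨C, hC⟩ := Pool.Agent.H58.LS.kbv d 1 (Icc 0 1) univ (famA a r) R isCompact_Icc isOpen_univ
    (subset_univ _) (famA_smooth ha r).contDiffOn (fun ε _ ξ hξ => hR ε ξ hξ) (d + 1)
  have hC0 : 0 ≤ C := le_trans (by positivity) (hC 0 ⟨le_rfl, zero_le_one⟩ 0)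
  refine ⟨C, hC0, fun lam hl x => ?_⟩
  have hl0 : 0 < lam := by linarith
  obtain ⟨ε, hε⟩ : ∃ ε : Fin 1 → ℝ, ε = fun _ => lam⁻¹ := ⟨_, rfl⟩
  have hεK : ε ∈ Icc (0 : Fin 1 → ℝ) 1 := by
    rw [hε]
    refine ⟨fun _ => by simp; positivity, fun _ => ?_⟩
    simp only [Pi.one_apply]
    exact inv_le_one_of_one_le₀ hl
  rw [← hε]
  have h1 : MK (fun ξ : Pool.Agent.H82.KL.EE d => famA a r (ε, lam⁻¹ • ξ)) x =
      ((lam ^ d : ℝ) : ℂ) * MK (fun ξ : Pool.Agent.H82.KL.EE d => famA a r (ε, ξ)) (lam • x) := by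
    have h2 := MeasureTheory.Measure.integral_comp_smul (volume : Measure (Pool.Agent.H82.KL.EE d))
      (fun η : Pool.Agent.H82.KL.EE d =>
        Pool.Agent.H83.LS.e (inner ℝ (lam • x) η) * famA a r (ε, η)) lam⁻¹
    unfold MK
    have h3 : ∀ ξ : Pool.Agent.H82.KL.EE d, inner ℝ (lam • x) (lam⁻¹ • ξ) = inner ℝ x ξ := by
      intro ξ
      rw [inner_smul_left, inner_smul_right]
      simp only [conj_trivial]
      field_simp
    simp only [h3] at h2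
    rw [h2, finrank_euclideanSpace, Fintype.card_fin, inv_pow, inv_inv, abs_of_pos (by positivity),
      Complex.real_smul]
  rw [h1, norm_mul, Complex.norm_real, Real.norm_of_nonneg (by positivity)]
  have h7 := hC ε hεK (lam • x)
  rw [norm_smul, Real.norm_of_nonneg hl0.le] at h7
  have h8 : (0 : ℝ) < (1 + lam * ‖x‖) ^ (d + 1) := by positivity
  rw [← le_div_iff₀ h8] at h7
  calc lam ^ d * ‖MK (fun ξ => famA a r (ε, ξ)) (lam • x)‖ ≤
      lam ^ d * (C / (1 + lam * ‖x‖) ^ (d + 1)) := by gcongr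
    _ = _ := by rw [div_eq_mul_inv]; ring

theorem maj_aux {d : ℕ} (s : ℝ) {a : Pool.Agent.H82.KL.EE d → ℂ} (ha : Sym a) :
    ∃ C : ℝ≥0, ∀ (lam : ℝ) (u f : 𝓢(Pool.Agent.H82.KL.EE d, ℂ)), 1 ≤ lam →
      (∀ ξ, 𝓕 (f : Pool.Agent.H82.KL.EE d → ℂ) ξ =
        a (lam⁻¹ • ξ) * 𝓕 (u : Pool.Agent.H82.KL.EE d → ℂ) ξ) →
      ∀ x, ‖f x‖ₑ ≤ C * ENNReal.ofReal (lam ^ (-s)) *
        ∫⁻ y, ENNReal.ofReal (lam ^ d * ((1 + lam * ‖x - y‖) ^ (d + 1))⁻¹) *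
          ‖Pool.Agent.H84.BR.CD.besS s u y‖ₑ := by
  obtain ⟨C, hC0, hC⟩ := famA_ptw ha s
  refine ⟨C.toNNReal, fun lam u f hl hf x => ?_⟩
  have hl0 : 0 < lam := by linarith
  have htemp : (fun ξ : Pool.Agent.H82.KL.EE d => a (lam⁻¹ • ξ)).HasTemperateGrowth := by
    have h1 : ContDiff ℝ (⊤ : ℕ∞) (fun ξ : Pool.Agent.H82.KL.EE d => a (lam⁻¹ • ξ)) :=
      ha.1.comp (contDiff_const_smul _)
    have h2 : HasCompactSupport (fun ξ : Pool.Agent.H82.KL.EE d => a (lam⁻¹ • ξ)) :=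
      ha.2.1.comp_smul (inv_ne_zero hl0.ne')
    exact h2.hasTemperateGrowth h1
  obtain ⟨g, hg1, hg2⟩ := schwartz_mult htemp u
  have hfg : f = g := by
    have h1 : 𝓕 f = 𝓕 g := by
      ext ξ
      rw [SchwartzMap.fourier_coe, SchwartzMap.fourier_coe, hf, hg1]
    have h2 := congrArg (fun z : 𝓢(Pool.Agent.H82.KL.EE d, ℂ) => 𝓕⁻ z) h1
    simpa using h2
  obtain ⟨h, hh1, hh2⟩ := besS_schwartz s u
  obtain ⟨M, hM⟩ : ∃ M : Pool.Agent.H82.KL.EE d → ℂ,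
      M = fun ξ => famA a s ((fun _ => lam⁻¹), lam⁻¹ • ξ) := ⟨_, rfl⟩
  have hMi : Integrable M := by
    rw [hM]
    exact famA_int ha s _ _ (by positivity)
  have hgM : g x = ((lam ^ (-s) : ℝ) : ℂ) * MM M h x := by
    rw [hg2]
    unfold MM
    rw [← integral_const_mul]
    refine integral_congr_ae (Filter.Eventually.of_forall fun ξ => ?_)
    simp only
    rw [hh1, hM, famA_bs a s hl0 ξ]
    ring
  rw [hfg, hgM, MM_conv hMi h.integrable, enorm_mul]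
  have h5 : ‖((lam ^ (-s) : ℝ) : ℂ)‖ₑ = ENNReal.ofReal (lam ^ (-s)) := by
    rw [← ofReal_norm, Complex.norm_real, Real.norm_of_nonneg (by positivity)]
  rw [h5]
  have h6 : ‖∫ y, MK M (x - y) * h y‖ₑ ≤ (C.toNNReal : ℝ≥0∞) *
      ∫⁻ y, ENNReal.ofReal (lam ^ d * ((1 + lam * ‖x - y‖) ^ (d + 1))⁻¹) *
          ‖Pool.Agent.H84.BR.CD.besS s u y‖ₑ := by
    refine (enorm_integral_le_lintegral_enorm _).trans ?_
    rw [← lintegral_const_mul' _ _ ENNReal.coe_ne_top]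
    refine lintegral_mono fun y => ?_
    rw [enorm_mul, hh2, ← mul_assoc]
    refine mul_le_mul_left ?_ _
    rw [← ofReal_norm, ENNReal.ofNNReal_toNNReal, ← ENNReal.ofReal_mul hC0]
    apply ENNReal.ofReal_le_ofReal
    rw [hM]
    exact hC lam hl (x - y)
  calc ENNReal.ofReal (lam ^ (-s)) * ‖∫ y, MK M (x - y) * h y‖ₑ ≤
      ENNReal.ofReal (lam ^ (-s)) * ((C.toNNReal : ℝ≥0∞) *
      ∫⁻ y, ENNReal.ofReal (lam ^ d * ((1 + lam * ‖x - y‖) ^ (d + 1))⁻¹) *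
          ‖Pool.Agent.H84.BR.CD.besS s u y‖ₑ) := by gcongr
    _ = _ := by ring

end

open Pool.Agent.H82.PD in
theorem pf_MAJ : T_MAJ := fun _ s _ _ hb => maj_aux s hb

end Pool.Agent.H38.PD
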