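import Pool.Agent.H82.PD.Targets

/-!
# (RVA) the real variable inequality, `2 < p ≤ 3`
-/

set_option autoImplicit false

namespace Pool.Agent.H38.PD

open MeasureTheory Set Pool.Agent.H82.KL Pool.Agent.H82.PD
open scoped ENNReal NNReal

/-- the kernel of the averages over balls -/
noncomputable def Kb {d : ℕ} (b : ℝ) (x y : EE d) : ℝ≥0∞ :=
  ({q : EE d × EE d | ‖q.1 - q.2‖ ≤ b}).indicator (fun _ => (1 : ℝ≥0∞)) (x, y)

theorem kb_set {d : ℕ} (b : ℝ) : MeasurableSet {q : EE d × EE d | ‖q.1 - q.2‖ ≤ b} :=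
  (isClosed_le (by fun_prop) continuous_const).measurableSet

theorem kb_meas {d : ℕ} (b : ℝ) : Measurable (fun q : EE d × EE d => Kb b q.1 q.2) :=
  measurable_const.indicator (kb_set b)

theorem kb_meas' {d : ℕ} (b : ℝ) (x : EE d) : Measurable (fun y => Kb b x y) :=
  (show Measurable (Function.uncurry (Kb (d := d) b)) from kb_meas b).of_uncurry_left

theorem kb_symm {d : ℕ} (b : ℝ) (x y : EE d) : Kb b x y = Kb b y x := by
  unfold Kb
  by_cases h : ‖x - y‖ ≤ b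
  · rw [indicator_of_mem (by exact h), indicator_of_mem (by rw [norm_sub_rev] at h; exact h)]
  · rw [indicator_of_notMem (by exact h), indicator_of_notMem (by rw [norm_sub_rev] at h; exact h)]

theorem ba_eq {d : ℕ} (b : ℝ) (F : EE d → ℝ≥0∞) (x : EE d) :
    ba b F x = ∫⁻ y, Kb b x y * F y := by
  unfold ba
  rw [← lintegral_indicator Metric.isClosed_closedBall.measurableSet]
  refine lintegral_congr fun y => ?_
  by_cases h : ‖x - y‖ ≤ b
  · have h1 : Kb b x y = 1 :=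
      indicator_of_mem (s := {q : EE d × EE d | ‖q.1 - q.2‖ ≤ b}) (by exact h) _
    rw [h1, one_mul, indicator_of_mem]
    rw [mem_closedBall_iff_norm, norm_sub_rev]; exact h
  · have h1 : Kb b x y = 0 :=
      indicator_of_notMem (s := {q : EE d × EE d | ‖q.1 - q.2‖ ≤ b}) (by exact h) _
    rw [h1, zero_mul, indicator_of_notMem]
    rw [mem_closedBall_iff_norm, norm_sub_rev]; exact h

theorem ba_meas {d : ℕ} (b : ℝ) {F : EE d → ℝ≥0∞} (hF : Measurable F) : Measurable (ba b F) := by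
  have : ba b F = fun x => ∫⁻ y, Kb b x y * F y := funext fun x => ba_eq b F x
  rw [this]
  exact Measurable.lintegral_prod_right' (f := fun q : EE d × EE d => Kb b q.1 q.2 * F q.2)
    ((kb_meas b).mul (hF.comp measurable_snd))

theorem kb_int {d : ℕ} (b : ℝ) (x : EE d) : ∫⁻ y, Kb b x y = volume (Metric.closedBall (0 : EE d) b) := by
  have h1 := ba_eq b (fun _ : EE d => (1 : ℝ≥0∞)) x
  simp only [mul_one] at h1
  rw [← h1]
  unfold ba
  rw [lintegral_one, Measure.restrict_apply_univ]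
  exact Measure.addHaar_closedBall_center volume x b

theorem ba_mono {d : ℕ} {b b' : ℝ} (F : EE d → ℝ≥0∞) (x y : EE d) (h : ‖x - y‖ + b ≤ b') :
    ba b F x ≤ ba b' F y := by
  unfold ba
  refine lintegral_mono_set fun z hz => ?_
  rw [mem_closedBall_iff_norm] at hz ⊢
  calc ‖z - y‖ = ‖(x - y) + (z - x)‖ := by congr 1; abel
    _ ≤ ‖x - y‖ + ‖z - x‖ := norm_add_le _ _
    _ ≤ b' := by linarith

theorem swap {d : ℕ} {b : ℝ} (hb : 0 < b) {F : EE d → ℝ≥0∞} (hF : Measurable F) {q : ℝ}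
    (hq : 0 ≤ q) : volume (Metric.closedBall (0 : EE d) b) * ∫⁻ x, F x * ba b F x ^ q ≤
      ∫⁻ y, ba (2 * b) F y ^ (q + 1) := by
  have hS := ba_meas b hF
  have hS2 := ba_meas (2 * b) hF
  have e1 : volume (Metric.closedBall (0 : EE d) b) * ∫⁻ x, F x * ba b F x ^ q =
      ∫⁻ x, ∫⁻ y, Kb b x y * (F x * ba b F x ^ q) := by
    rw [← lintegral_const_mul' _ _ measure_closedBall_lt_top.ne]
    refine lintegral_congr fun x => ?_
    rw [lintegral_mul_const _ (kb_meas' b x), kb_int]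
  rw [e1]
  have e2 : ∫⁻ x, ∫⁻ y, Kb b x y * (F x * ba b F x ^ q) ≤
      ∫⁻ x, ∫⁻ y, Kb b x y * (F x * ba (2 * b) F y ^ q) := by
    refine lintegral_mono fun x => lintegral_mono fun y => ?_
    simp only
    by_cases h : ‖x - y‖ ≤ b
    · have := ba_mono (b := b) (b' := 2 * b) F x y (by linarith)
      gcongr
    · have : Kb b x y = 0 :=
        indicator_of_notMem (s := {q : EE d × EE d | ‖q.1 - q.2‖ ≤ b}) (by exact h) _
      rw [this, zero_mul, zero_mul]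
  refine e2.trans ?_
  rw [lintegral_lintegral_swap]
  · refine lintegral_mono fun y => ?_
    have e3 : ∀ x, Kb b x y * (F x * ba (2 * b) F y ^ q) = Kb b y x * F x * ba (2 * b) F y ^ q := by
      intro x; rw [kb_symm]; ring
    simp only [e3]
    rw [lintegral_mul_const]
    · rw [← ba_eq, ENNReal.rpow_add_of_nonneg _ _ hq zero_le_one, ENNReal.rpow_one, mul_comm]
      have := ba_mono (b := b) (b' := 2 * b) F y y (by simp; linarith)
      gcongr
    · exact (kb_meas' b y).mul hF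
  · exact ((kb_meas b).mul ((hF.comp measurable_fst).mul
      ((hS2.comp measurable_snd).pow_const q))).aemeasurable

theorem sum_rpow_le {ι : Type*} (s : Finset ι) (f : ι → ℝ≥0∞) {t : ℝ} (ht : 0 < t) (ht1 : t ≤ 1) :
    (∑ i ∈ s, f i) ^ t ≤ ∑ i ∈ s, f i ^ t := by
  classical
  induction s using Finset.induction_on with
  | empty => simp [ht]
  | insert i s hi ih =>
    rw [Finset.sum_insert hi, Finset.sum_insert hi]
    exact (ENNReal.rpow_add_le_add_rpow _ _ ht.le ht1).trans (by gcongr)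

theorem ofReal_rpow' {a : ℝ} (ha : 0 ≤ a) {t : ℝ} (ht : 0 ≤ t) :
    ENNReal.ofReal a ^ t = ENNReal.ofReal (a ^ t) := ENNReal.ofReal_rpow_of_nonneg ha ht

/-- the claim for one ball -/
theorem one_ball {d : ℕ} {p κ : ℝ} (hp : 2 < p) {lam b : ℝ} (hl : 1 ≤ lam) (hb : 0 < b)
    (hlb : 1 / lam ≤ 2 * b) (hb8 : 2 * b ≤ 16) {F V : EE d → ℝ≥0∞} (hF : Measurable F)
    (h2 : ∀ x, F x ≤ ENNReal.ofReal (lam ^ κ) * V x)
    (h3 : ∀ b x, 1 / lam ≤ b → b ≤ 16 → ba b F x ≤ ENNReal.ofReal (b ^ ((d : ℝ) - κ)) * V x) :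
    ∫⁻ x, F x ^ (2 : ℝ) * ba b F x ^ (p - 2) ≤
      ((volume (Metric.closedBall (0 : EE d) b))⁻¹ *
        ENNReal.ofReal ((2 * b) ^ (((d : ℝ) - κ) * p))) ^ ((p - 2) / (p - 1)) *
      ENNReal.ofReal (lam ^ (κ * p / (p - 1))) * ∫⁻ x, V x ^ p := by
  have hl0 : 0 < lam := by linarith
  have hp1 : 0 < p - 1 := by linarith
  set v := volume (Metric.closedBall (0 : EE d) b) with hv
  have hv0 : v ≠ 0 := (Metric.measure_closedBall_pos volume _ hb).ne'
  have hvt : v ≠ ∞ := measure_closedBall_lt_top.ne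
  set I := ∫⁻ x, V x ^ p with hI
  have hS := ba_meas b hF
  -- pointwise
  have e0 : ∀ x, F x ^ (2 : ℝ) * ba b F x ^ (p - 2) =
      (F x * ba b F x ^ (p - 1)) ^ ((p - 2) / (p - 1)) * (F x ^ p) ^ (1 / (p - 1)) := by
    intro x
    have hθ : 0 ≤ (p - 2) / (p - 1) := by apply div_nonneg <;> linarith
    rw [ENNReal.mul_rpow_of_nonneg _ _ hθ, ← ENNReal.rpow_mul, ← ENNReal.rpow_mul]
    have a1 : (p - 1) * ((p - 2) / (p - 1)) = p - 2 := by field_simp
    have a2 : F x ^ (2 : ℝ) = F x ^ ((p - 2) / (p - 1)) * F x ^ (p * (1 / (p - 1))) := by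
      rw [← ENNReal.rpow_add_of_nonneg _ _ hθ (by positivity)]
      congr 1
      field_simp
      ring
    rw [a1, a2]
    ring
  simp only [e0]
  have hH := ENNReal.lintegral_mul_norm_pow_le (μ := (volume : Measure (EE d)))
    (f := fun x => F x * ba b F x ^ (p - 1)) (g := fun x => F x ^ p)
    (hF.mul (hS.pow_const _)).aemeasurable (hF.pow_const _).aemeasurable
    (p := (p - 2) / (p - 1)) (q := 1 / (p - 1)) (by apply div_nonneg <;> linarith)
    (by positivity) (by field_simp; ring)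
  refine hH.trans ?_
  have e1 : ∫⁻ x, F x * ba b F x ^ (p - 1) ≤
      v⁻¹ * ENNReal.ofReal ((2 * b) ^ (((d : ℝ) - κ) * p)) * I := by
    have h4 := swap hb hF (q := p - 1) hp1.le
    have h5 : ∫⁻ y, ba (2 * b) F y ^ (p - 1 + 1) ≤
        ENNReal.ofReal ((2 * b) ^ (((d : ℝ) - κ) * p)) * I := by
      rw [← lintegral_const_mul' _ _ ENNReal.ofReal_ne_top]
      refine lintegral_mono fun y => ?_
      rw [sub_add_cancel]
      calc ba (2 * b) F y ^ p ≤ (ENNReal.ofReal ((2 * b) ^ ((d : ℝ) - κ)) * V y) ^ p := by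
            gcongr; exact h3 (2 * b) y hlb hb8
        _ = _ := by
            rw [ENNReal.mul_rpow_of_nonneg _ _ (by linarith), ofReal_rpow' (by positivity)
              (by linarith), ← Real.rpow_mul (by positivity)]
    have h6 := h4.trans h5
    calc ∫⁻ x, F x * ba b F x ^ (p - 1) = v⁻¹ * (v * ∫⁻ x, F x * ba b F x ^ (p - 1)) := by
          rw [← mul_assoc, ENNReal.inv_mul_cancel hv0 hvt, one_mul]
      _ ≤ v⁻¹ * (ENNReal.ofReal ((2 * b) ^ (((d : ℝ) - κ) * p)) * I) := by gcongr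
      _ = _ := by ring
  have e2 : ∫⁻ x, F x ^ p ≤ ENNReal.ofReal (lam ^ (κ * p)) * I := by
    rw [← lintegral_const_mul' _ _ ENNReal.ofReal_ne_top]
    refine lintegral_mono fun y => ?_
    calc F y ^ p ≤ (ENNReal.ofReal (lam ^ κ) * V y) ^ p := by gcongr; exact h2 y
      _ = _ := by
          rw [ENNReal.mul_rpow_of_nonneg _ _ (by linarith), ofReal_rpow' (by positivity)
            (by linarith), ← Real.rpow_mul (by positivity)]
  have hθ : 0 ≤ (p - 2) / (p - 1) := by apply div_nonneg <;> linarith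
  have hθ' : 0 ≤ 1 / (p - 1) := by positivity
  calc (∫⁻ x, F x * ba b F x ^ (p - 1)) ^ ((p - 2) / (p - 1)) * (∫⁻ x, F x ^ p) ^ (1 / (p - 1)) ≤
      (v⁻¹ * ENNReal.ofReal ((2 * b) ^ (((d : ℝ) - κ) * p)) * I) ^ ((p - 2) / (p - 1)) *
        (ENNReal.ofReal (lam ^ (κ * p)) * I) ^ (1 / (p - 1)) := by gcongr
    _ = (v⁻¹ * ENNReal.ofReal ((2 * b) ^ (((d : ℝ) - κ) * p))) ^ ((p - 2) / (p - 1)) *
        ENNReal.ofReal (lam ^ (κ * p / (p - 1))) * (I ^ ((p - 2) / (p - 1)) * I ^ (1 / (p - 1))) := by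
        rw [ENNReal.mul_rpow_of_nonneg _ I hθ, ENNReal.mul_rpow_of_nonneg _ I hθ',
          ofReal_rpow' (by positivity) hθ', ← Real.rpow_mul hl0.le, mul_one_div]
        ring
    _ = _ := by
        rw [← ENNReal.rpow_add_of_nonneg _ _ hθ hθ']
        have : (p - 2) / (p - 1) + 1 / (p - 1) = 1 := by field_simp; ring
        rw [this, ENNReal.rpow_one]

/-- the claim for one dyadic ball, with the weight -/
theorem one_term {d : ℕ} {p κ : ℝ} (hp : 2 < p) {lam b : ℝ} (hl : 1 ≤ lam) (hb : 0 < b)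
    (hlb : 1 / lam ≤ b) (hb8 : b ≤ 8) {F V : EE d → ℝ≥0∞} (hF : Measurable F)
    (h2 : ∀ x, F x ≤ ENNReal.ofReal (lam ^ κ) * V x)
    (h3 : ∀ b x, 1 / lam ≤ b → b ≤ 16 → ba b F x ≤ ENNReal.ofReal (b ^ ((d : ℝ) - κ)) * V x) :
    ENNReal.ofReal ((b ^ 2)⁻¹) ^ (p - 2) * ∫⁻ x, F x ^ (2 : ℝ) * ba b F x ^ (p - 2) ≤
      ((volume (Metric.ball (0 : EE d) 1))⁻¹ *
        ENNReal.ofReal ((2 : ℝ) ^ (((d : ℝ) - κ) * p))) ^ ((p - 2) / (p - 1)) *
      ENNReal.ofReal (8 ^ |((d : ℝ) - 2) * (p - 2) - κ * p * (p - 2) / (p - 1)| *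
        (lam ^ (κ * p / (p - 1)) + lam ^ (κ * p - ((d : ℝ) - 2) * (p - 2)))) *
      ∫⁻ x, V x ^ p := by
  have hl0 : 0 < lam := by linarith
  have hp1 : 0 < p - 1 := by linarith
  have hp2 : 0 < p - 2 := by linarith
  have hθ : 0 ≤ (p - 2) / (p - 1) := by positivity
  have h := one_ball hp hl hb (by linarith : 1 / lam ≤ 2 * b) (by linarith) hF h2 h3
  set v := volume (Metric.ball (0 : EE d) 1) with hv
  set I := ∫⁻ x, V x ^ p with hI
  set E := ((d : ℝ) - 2) * (p - 2) - κ * p * (p - 2) / (p - 1) with hE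
  have e1 : volume (Metric.closedBall (0 : EE d) b) = ENNReal.ofReal (b ^ d) * v := by
    rw [Measure.addHaar_closedBall _ _ hb.le]
    simp [finrank_euclideanSpace, hv]
  have hbd : 0 < b ^ d := by positivity
  have e2 : (volume (Metric.closedBall (0 : EE d) b))⁻¹ *
      ENNReal.ofReal ((2 * b) ^ (((d : ℝ) - κ) * p)) =
      (v⁻¹ * ENNReal.ofReal ((2 : ℝ) ^ (((d : ℝ) - κ) * p))) *
        ENNReal.ofReal (b ^ (((d : ℝ) - κ) * p - d)) := by
    rw [e1, ENNReal.mul_inv (Or.inl (by simpa using hbd)) (Or.inl ENNReal.ofReal_ne_top),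
      Real.mul_rpow (by norm_num) hb.le, ENNReal.ofReal_mul (by positivity),
      ← ENNReal.ofReal_inv_of_pos hbd, Real.rpow_sub hb, Real.rpow_natCast, div_eq_mul_inv,
      ENNReal.ofReal_mul (by positivity)]
    ring
  have e3 : ENNReal.ofReal ((b ^ 2)⁻¹) ^ (p - 2) = ENNReal.ofReal (b ^ (-2 * (p - 2))) := by
    rw [ofReal_rpow' (by positivity) hp2.le]
    congr 1
    rw [Real.rpow_mul hb.le, Real.rpow_neg hb.le]
    norm_num
  have e4 : ENNReal.ofReal (b ^ (((d : ℝ) - κ) * p - d)) ^ ((p - 2) / (p - 1)) =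
      ENNReal.ofReal (b ^ ((((d : ℝ) - κ) * p - d) * ((p - 2) / (p - 1)))) := by
    rw [ofReal_rpow' (by positivity) hθ, ← Real.rpow_mul hb.le]
  have e5 : b ^ (-2 * (p - 2)) * b ^ ((((d : ℝ) - κ) * p - d) * ((p - 2) / (p - 1))) = b ^ E := by
    rw [← Real.rpow_add hb]
    congr 1
    rw [hE]
    field_simp
    ring
  have e6 : b ^ E * lam ^ (κ * p / (p - 1)) ≤
      8 ^ |E| * (lam ^ (κ * p / (p - 1)) + lam ^ (κ * p - ((d : ℝ) - 2) * (p - 2))) := by
    have e7 : lam ^ (κ * p - ((d : ℝ) - 2) * (p - 2)) = lam ^ (κ * p / (p - 1)) * lam ^ (-E) := by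
      rw [← Real.rpow_add hl0]
      congr 1
      rw [hE]
      field_simp
      ring
    rw [e7]
    have hA : 0 < lam ^ (κ * p / (p - 1)) := by positivity
    have hB : 0 < lam ^ (-E) := by positivity
    have h8 : (1 : ℝ) ≤ 8 ^ |E| := Real.one_le_rpow (by norm_num) (abs_nonneg _)
    have h9 : b ^ E ≤ 8 ^ |E| * (1 + lam ^ (-E)) := by
      rcases le_or_gt 0 E with hE0 | hE0
      · have : b ^ E ≤ 8 ^ E := Real.rpow_le_rpow hb.le hb8 hE0
        rw [abs_of_nonneg hE0] at h8 ⊢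
        nlinarith [mul_pos (by positivity : (0 : ℝ) < 8 ^ E) hB]
      · have h10 : b ^ E ≤ (1 / lam) ^ E :=
          Real.rpow_le_rpow_of_nonpos (by positivity) hlb hE0.le
        have h11 : (1 / lam) ^ E = lam ^ (-E) := by
          rw [one_div, Real.inv_rpow hl0.le, Real.rpow_neg hl0.le]
        rw [h11] at h10
        nlinarith
    calc b ^ E * lam ^ (κ * p / (p - 1)) ≤ (8 ^ |E| * (1 + lam ^ (-E))) *
          lam ^ (κ * p / (p - 1)) := by gcongr
      _ = _ := by ring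
  calc ENNReal.ofReal ((b ^ 2)⁻¹) ^ (p - 2) * ∫⁻ x, F x ^ (2 : ℝ) * ba b F x ^ (p - 2)
      ≤ ENNReal.ofReal ((b ^ 2)⁻¹) ^ (p - 2) * (((volume (Metric.closedBall (0 : EE d) b))⁻¹ *
        ENNReal.ofReal ((2 * b) ^ (((d : ℝ) - κ) * p))) ^ ((p - 2) / (p - 1)) *
      ENNReal.ofReal (lam ^ (κ * p / (p - 1))) * I) := by gcongr
    _ = (v⁻¹ * ENNReal.ofReal ((2 : ℝ) ^ (((d : ℝ) - κ) * p))) ^ ((p - 2) / (p - 1)) *
      ENNReal.ofReal (b ^ E * lam ^ (κ * p / (p - 1))) * I := by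
        rw [e2, ENNReal.mul_rpow_of_nonneg _ _ hθ, e4, e3, ← e5,
          ENNReal.ofReal_mul (by positivity), ENNReal.ofReal_mul (by positivity)]
        ring
    _ ≤ _ := by gcongr

theorem pf_RVA (h : T_SHD) : T_RVA := by
  intro d p κ C₀ hd hp hp3 hκ
  obtain ⟨CS, hCS⟩ := h d C₀ hd
  have hp1 : 0 < p - 1 := by linarith
  have hp2 : 0 < p - 2 := by linarith
  have hθ : 0 ≤ (p - 2) / (p - 1) := by positivity
  set v := volume (Metric.ball (0 : EE d) 1) with hv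
  have hv0 : v ≠ 0 := (Metric.measure_ball_pos volume _ one_pos).ne'
  set A : ℝ≥0∞ := (v⁻¹ * ENNReal.ofReal ((2 : ℝ) ^ (((d : ℝ) - κ) * p))) ^ ((p - 2) / (p - 1))
    with hA
  have hAt : A ≠ ∞ := ENNReal.rpow_ne_top_of_nonneg hθ
    (ENNReal.mul_ne_top (ENNReal.inv_ne_top.2 hv0) ENNReal.ofReal_ne_top)
  set E := ((d : ℝ) - 2) * (p - 2) - κ * p * (p - 2) / (p - 1) with hE
  set D : ℝ≥0∞ := (CS : ℝ≥0∞) ^ (p - 2) * (1 + CS * (A * ENNReal.ofReal (8 ^ |E|))) with hD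
  have hDt : D ≠ ∞ := by
    refine ENNReal.mul_ne_top (ENNReal.rpow_ne_top_of_nonneg hp2.le ENNReal.coe_ne_top) ?_
    refine ENNReal.add_ne_top.2 ⟨ENNReal.one_ne_top, ?_⟩
    exact ENNReal.mul_ne_top ENNReal.coe_ne_top (ENNReal.mul_ne_top hAt ENNReal.ofReal_ne_top)
  refine ⟨D.toNNReal, fun lam F V hl hF hV h1 h2 h3 => ?_⟩
  rw [ENNReal.coe_toNNReal hDt]
  obtain ⟨J, hJ1, hJ2, hJ3⟩ := hCS lam hl
  have hl0 : 0 < lam := by linarith
  have hlog : 0 ≤ Real.log lam := Real.log_nonneg hl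
  set I := ∫⁻ x, V x ^ p with hI
  set X := lam ^ (κ * p / (p - 1)) with hX
  set Y := lam ^ (κ * p - ((d : ℝ) - 2) * (p - 2)) with hY
  have hX0 : 0 < X := by positivity
  have hY0 : 0 < Y := by positivity
  set b : ℕ → ℝ := fun j => 8 / 2 ^ j with hb
  have hb0 : ∀ j, 0 < b j := fun j => by positivity
  have hb8 : ∀ j, b j ≤ 8 := fun j => div_le_self (by norm_num) (one_le_pow₀ (by norm_num))
  -- pointwise
  have pw : ∀ x, F x ^ 2 * (k2B F x) ^ (p - 2) ≤ (CS : ℝ≥0∞) ^ (p - 2) *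
      (ENNReal.ofReal (lam ^ (-((d : ℝ) - 2))) ^ (p - 2) * F x ^ p +
        ∑ j ∈ Finset.range J, ENNReal.ofReal ((b j ^ 2)⁻¹) ^ (p - 2) *
          (F x ^ (2 : ℝ) * ba (b j) F x ^ (p - 2))) := by
    intro x
    have e1 : F x ^ 2 = F x ^ (2 : ℝ) := (ENNReal.rpow_two _).symm
    have e2 : F x ^ p = F x ^ (2 : ℝ) * F x ^ (p - 2) := by
      rw [← ENNReal.rpow_add_of_nonneg _ _ (by norm_num) hp2.le]
      congr 1; ring
    have e3 := hJ3 F hF h1 x
    rw [e1, e2]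
    calc F x ^ (2 : ℝ) * (k2B F x) ^ (p - 2) ≤ F x ^ (2 : ℝ) *
          (CS * (ENNReal.ofReal (lam ^ (-((d : ℝ) - 2))) * F x +
            ∑ j ∈ Finset.range J, ENNReal.ofReal ((b j ^ 2)⁻¹) * ba (b j) F x)) ^ (p - 2) := by
          gcongr
      _ ≤ F x ^ (2 : ℝ) * ((CS : ℝ≥0∞) ^ (p - 2) *
          (ENNReal.ofReal (lam ^ (-((d : ℝ) - 2))) ^ (p - 2) * F x ^ (p - 2) +
            ∑ j ∈ Finset.range J,
              ENNReal.ofReal ((b j ^ 2)⁻¹) ^ (p - 2) * ba (b j) F x ^ (p - 2))) := by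
          rw [ENNReal.mul_rpow_of_nonneg _ _ hp2.le]
          gcongr
          refine (ENNReal.rpow_add_le_add_rpow _ _ hp2.le (by linarith)).trans ?_
          rw [ENNReal.mul_rpow_of_nonneg _ _ hp2.le]
          gcongr
          refine (sum_rpow_le _ _ hp2 (by linarith)).trans (Finset.sum_le_sum fun j _ => ?_)
          rw [ENNReal.mul_rpow_of_nonneg _ _ hp2.le]
      _ = _ := by
          rw [mul_left_comm, mul_add, mul_add, Finset.mul_sum]
          rw [mul_add]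
          congr 1
          · ring
          · congr 1
            refine Finset.sum_congr rfl fun j _ => ?_
            ring
  unfold KB
  rw [if_pos hp3]
  have hS : ∀ j, Measurable (ba (b j) F) := fun j => ba_meas (b j) hF
  -- the first term
  have t1 : ENNReal.ofReal (lam ^ (-((d : ℝ) - 2))) ^ (p - 2) * ∫⁻ x, F x ^ p ≤
      ENNReal.ofReal Y * I := by
    have e2 : ∫⁻ x, F x ^ p ≤ ENNReal.ofReal (lam ^ (κ * p)) * I := by
      rw [← lintegral_const_mul' _ _ ENNReal.ofReal_ne_top]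
      refine lintegral_mono fun y => ?_
      calc F y ^ p ≤ (ENNReal.ofReal (lam ^ κ) * V y) ^ p := by gcongr; exact h2 y
        _ = _ := by
            rw [ENNReal.mul_rpow_of_nonneg _ _ (by linarith), ofReal_rpow' (by positivity)
              (by linarith), ← Real.rpow_mul (by positivity)]
    calc ENNReal.ofReal (lam ^ (-((d : ℝ) - 2))) ^ (p - 2) * ∫⁻ x, F x ^ p ≤
        ENNReal.ofReal (lam ^ (-((d : ℝ) - 2))) ^ (p - 2) *
          (ENNReal.ofReal (lam ^ (κ * p)) * I) := by gcongr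
      _ = ENNReal.ofReal Y * I := by
          rw [ofReal_rpow' (by positivity) hp2.le, ← Real.rpow_mul hl0.le, ← mul_assoc,
            ← ENNReal.ofReal_mul (by positivity), ← Real.rpow_add hl0]
          congr 3
          ring
  have t2 : ∀ j ∈ Finset.range J, ENNReal.ofReal ((b j ^ 2)⁻¹) ^ (p - 2) *
      ∫⁻ x, F x ^ (2 : ℝ) * ba (b j) F x ^ (p - 2) ≤
      A * ENNReal.ofReal (8 ^ |E| * (X + Y)) * I := fun j hj =>
    one_term hp hl (hb0 j) (hJ2 j (Finset.mem_range.1 hj)) (hb8 j) hF h2 h3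
  have hm : ∀ j, Measurable fun x => ENNReal.ofReal ((b j ^ 2)⁻¹) ^ (p - 2) *
      (F x ^ (2 : ℝ) * ba (b j) F x ^ (p - 2)) := fun j =>
    ((hF.pow_const _).mul ((hS j).pow_const _)).const_mul _
  have hJ4 : (J : ℝ≥0∞) ≤ CS * ENNReal.ofReal (1 + Real.log lam) := by
    have : (J : ℝ≥0∞) = ENNReal.ofReal J := by simp
    rw [this, ← ENNReal.ofReal_coe_nnreal, ← ENNReal.ofReal_mul CS.coe_nonneg]
    exact ENNReal.ofReal_le_ofReal hJ1
  calc ∫⁻ x, F x ^ 2 * (k2B F x) ^ (p - 2) ≤ ∫⁻ x, (CS : ℝ≥0∞) ^ (p - 2) *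
      (ENNReal.ofReal (lam ^ (-((d : ℝ) - 2))) ^ (p - 2) * F x ^ p +
        ∑ j ∈ Finset.range J, ENNReal.ofReal ((b j ^ 2)⁻¹) ^ (p - 2) *
          (F x ^ (2 : ℝ) * ba (b j) F x ^ (p - 2))) := lintegral_mono pw
    _ = (CS : ℝ≥0∞) ^ (p - 2) * ((ENNReal.ofReal (lam ^ (-((d : ℝ) - 2))) ^ (p - 2) *
          ∫⁻ x, F x ^ p) + ∑ j ∈ Finset.range J, ENNReal.ofReal ((b j ^ 2)⁻¹) ^ (p - 2) *
            ∫⁻ x, F x ^ (2 : ℝ) * ba (b j) F x ^ (p - 2)) := by
        rw [lintegral_const_mul' _ _ (ENNReal.rpow_ne_top_of_nonneg hp2.le ENNReal.coe_ne_top),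
          lintegral_add_left ((hF.pow_const _).const_mul _),
          lintegral_const_mul' _ _ (ENNReal.rpow_ne_top_of_nonneg hp2.le ENNReal.ofReal_ne_top),
          lintegral_finsetSum _ (fun j _ => hm j)]
        have t3 : ∀ j ∈ Finset.range J, ∫⁻ x, ENNReal.ofReal ((b j ^ 2)⁻¹) ^ (p - 2) *
            (F x ^ (2 : ℝ) * ba (b j) F x ^ (p - 2)) = ENNReal.ofReal ((b j ^ 2)⁻¹) ^ (p - 2) *
            ∫⁻ x, F x ^ (2 : ℝ) * ba (b j) F x ^ (p - 2) := fun j _ =>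
          lintegral_const_mul' _ _ (ENNReal.rpow_ne_top_of_nonneg hp2.le ENNReal.ofReal_ne_top)
        rw [Finset.sum_congr rfl t3]
    _ ≤ (CS : ℝ≥0∞) ^ (p - 2) * (ENNReal.ofReal Y * I + ∑ j ∈ Finset.range J,
          A * ENNReal.ofReal (8 ^ |E| * (X + Y)) * I) := by
        exact mul_le_mul' le_rfl (add_le_add t1 (Finset.sum_le_sum t2))
    _ = (CS : ℝ≥0∞) ^ (p - 2) * (ENNReal.ofReal Y * I + J * (A * ENNReal.ofReal (8 ^ |E|) *
          ENNReal.ofReal (X + Y) * I)) := by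
        rw [Finset.sum_const, Finset.card_range, nsmul_eq_mul,
          ENNReal.ofReal_mul (by positivity)]
        ring
    _ ≤ (CS : ℝ≥0∞) ^ (p - 2) * (ENNReal.ofReal ((1 + Real.log lam) * (X + Y)) * I +
          (CS * ENNReal.ofReal (1 + Real.log lam)) * (A * ENNReal.ofReal (8 ^ |E|) *
          ENNReal.ofReal (X + Y) * I)) := by
        gcongr
        nlinarith
    _ = D * ENNReal.ofReal ((1 + Real.log lam) * (X + Y)) * I := by
        rw [hD, ENNReal.ofReal_mul (by positivity)]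
        ring

end Pool.Agent.H38.PD
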